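import Pool.Agent.Helper14.MR.Cake
import Pool.Agent.Helper30.MR.R14

/-!
# MR part R15: a cell function adapted to finitely many pieces
-/

set_option autoImplicit false

namespace Pool.Agent.Helper57.MR

open Set MeasureTheory Pool.Agent.Helper14.MR

/-- The points of a copy: values in `[0,1]`, supported in the copy, of sum one. -/
lemma copy_facts {m : ℕ} {j : Fin m} {x : Fin m × Fin 4 → ℝ} (hx : x ∈ copy j) :
    (∀ p, x p ∈ Icc (0 : ℝ) 1) ∧ (∀ p : Fin m × Fin 4, p.1 ≠ j → x p = 0) ∧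
      ∑ a, x (j, a) = 1 := by
  obtain ⟨a, b, t, ht, rfl⟩ := hx
  obtain ⟨h0, h1⟩ := ht
  refine ⟨?_, ?_, ?_⟩
  · intro p
    unfold seg
    constructor
    · split_ifs <;> linarith
    · split_ifs <;> linarith
  · intro p hp
    unfold seg
    rw [if_neg (fun h => hp (by rw [h])), if_neg (fun h => hp (by rw [h]))]
    ring
  · unfold seg
    rw [Finset.sum_add_distrib, ← Finset.mul_sum, ← Finset.mul_sum]
    have h2 : ∀ e : Fin 4, ∑ a : Fin 4, (if (j, a) = (j, e) then (1 : ℝ) else 0) = 1 := by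
      intro e
      have h3 : ∀ a : Fin 4, (if (j, a) = (j, e) then (1 : ℝ) else 0) = if a = e then 1 else 0 := by
        intro a
        by_cases hae : a = e
        · subst hae
          simp
        · rw [if_neg (fun h => hae (Prod.ext_iff.1 h).2), if_neg hae]
      simp
    rw [h2, h2]
    ring

/-- One direction for one interval. -/
lemma step {m n : ℕ} {c : ℝ → ℕ} (hc : Cell n c) {j : Fin m} {x y : Fin m × Fin 4 → ℝ}
    (hx : x ∈ copy j) (hy : y ∈ copy j) (hxy : ∀ a, c (x (j, a)) = c (y (j, a)))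
    {p q : Fin m × Fin 4} (hpq : IsEdge (K m) p q) {I : Set ℝ} (hI : I ⊆ Icc 0 1)
    (hIc : ∀ s ∈ Icc (0 : ℝ) 1, ∀ t ∈ Icc (0 : ℝ) 1, c s = c t → (s ∈ I ↔ t ∈ I))
    (h : x ∈ seg p q '' I) : y ∈ seg p q '' I := by
  obtain ⟨hx1, hx2, hx3⟩ := copy_facts hx
  obtain ⟨hy1, hy2, hy3⟩ := copy_facts hy
  have hzero : ∀ e, x (j, e) = 0 → y (j, e) = 0 := by
    intro e he
    have h1 : c 0 = 0 := (hc.zero 0 ⟨le_rfl, zero_le_one⟩).2 rfl
    have h2 := hxy e
    rw [he, h1] at h2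
    exact (hc.zero _ (hy1 _)).1 h2.symm
  obtain ⟨s, hs, hsx⟩ := h
  obtain ⟨hs0, hs1⟩ := hI hs
  rcases hpq with hpq | hpq
  · subst hpq
    have hxp : x p = 1 := by
      rw [← hsx]
      unfold seg
      simp
    have hpj : p.1 = j := by
      by_contra hne
      rw [hx2 p hne] at hxp
      exact zero_ne_one hxp
    obtain ⟨j', a⟩ := p
    obtain rfl : j' = j := hpj
    have hxe : ∀ e, e ≠ a → x (j', e) = 0 := by
      intro e he
      rw [← hsx]
      unfold seg
      rw [if_neg (fun h => he (Prod.ext_iff.1 h).2)]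
      ring
    have hya : y (j', a) = 1 := by
      rw [← hy3]
      symm
      exact Fintype.sum_eq_single a (fun e he => hzero e (hxe e he))
    refine ⟨s, hs, ?_⟩
    rw [hsx]
    funext r
    by_cases hr : r.1 = j'
    · obtain ⟨j'', e⟩ := r
      obtain rfl : j'' = j' := hr
      by_cases he : e = a
      · rw [he, hxp, hya]
      · rw [hxe e he, hzero e (hxe e he)]
    · rw [hx2 r hr, hy2 r hr]
  · obtain ⟨j1, a⟩ := p
    obtain ⟨j2, b⟩ := q
    obtain ⟨h12, hab⟩ := hpq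
    simp only at h12 hab
    subst h12
    have hxq : x (j1, b) = s := by
      rw [← hsx]
      unfold seg
      rw [if_neg (fun h => hab (Prod.ext_iff.1 h).2.symm), if_pos rfl]
      ring
    have hxp : x (j1, a) = 1 - s := by
      rw [← hsx]
      unfold seg
      rw [if_pos rfl, if_neg (fun h => hab (Prod.ext_iff.1 h).2)]
      ring
    have hj : j1 = j := by
      by_contra hne
      have h1 := hx2 (j1, a) hne
      have h2 := hx2 (j1, b) hne
      rw [hxp] at h1
      rw [hxq] at h2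
      linarith
    subst hj
    have hxe : ∀ e, e ≠ a → e ≠ b → x (j1, e) = 0 := by
      intro e he1 he2
      rw [← hsx]
      unfold seg
      rw [if_neg (fun h => he1 (Prod.ext_iff.1 h).2), if_neg (fun h => he2 (Prod.ext_iff.1 h).2)]
      ring
    have hye : ∀ e, e ≠ a → e ≠ b → y (j1, e) = 0 := fun e he1 he2 => hzero e (hxe e he1 he2)
    have hyab : y (j1, a) + y (j1, b) = 1 := by
      rw [← hy3]
      symm
      exact Fintype.sum_eq_add a b hab (fun e he => hye e he.1 he.2)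
    refine ⟨y (j1, b), ?_, ?_⟩
    · refine (hIc s (hI hs) _ (hy1 _) ?_).1 hs
      rw [← hxq]
      exact hxy b
    · funext r
      unfold seg
      by_cases hr : r.1 = j1
      · obtain ⟨j'', e⟩ := r
        obtain rfl : j'' = j1 := hr
        by_cases he1 : e = a
        · subst he1
          rw [if_pos rfl, if_neg (fun h => hab (Prod.ext_iff.1 h).2)]
          linarith
        · by_cases he2 : e = b
          · subst he2
            rw [if_neg (fun h => he1 (Prod.ext_iff.1 h).2), if_pos rfl]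
            ring
          · rw [if_neg (fun h => he1 (Prod.ext_iff.1 h).2),
              if_neg (fun h => he2 (Prod.ext_iff.1 h).2), hye e he1 he2]
            ring
      · rw [if_neg (fun h => hr (by rw [h])), if_neg (fun h => hr (by rw [h])), hy2 r hr]
        ring

/-- R15 (with R14 as a hypothesis). -/
theorem R15_of (hR14 : ∀ (k : ℕ) (I : Fin k → Set ℝ), (∀ i, (I i).OrdConnected) →
      ∃ (n : ℕ) (c : ℝ → ℕ), 1 ≤ n ∧ Cell n c ∧
        ∀ i, ∀ s ∈ Icc (0 : ℝ) 1, ∀ t ∈ Icc (0 : ℝ) 1, c s = c t → (s ∈ I i ↔ t ∈ I i))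
    {m : ℕ} {ι : Type} [Fintype ι] (P : ι → Set (Fin m × Fin 4 → ℝ))
    (hP : ∀ i, IsPiece (K m) (P i)) :
    ∃ (n : ℕ) (c : ℝ → ℕ), 1 ≤ n ∧ Cell n c ∧
      ∀ i, ∀ j : Fin m, ∀ x ∈ copy j, ∀ y ∈ copy j, (∀ a, c (x (j, a)) = c (y (j, a))) →
        (x ∈ P i ↔ y ∈ P i) := by
  choose k a b I hI hPI using hP
  set N := Fintype.card (Σ i, Fin (k i)) with hN
  set e := Fintype.equivFin (Σ i, Fin (k i)) with he
  set J : (Σ i, Fin (k i)) → Set ℝ := fun r => I r.1 r.2 with hJ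
  obtain ⟨n, c, hn, hc, hcI⟩ := hR14 N (fun r => J (e.symm r))
    (fun r => (hI (e.symm r).1 (e.symm r).2).2.1)
  have hcI' : ∀ i (l : Fin (k i)), ∀ s ∈ Icc (0 : ℝ) 1, ∀ t ∈ Icc (0 : ℝ) 1, c s = c t →
      (s ∈ I i l ↔ t ∈ I i l) := by
    intro i l
    have h1 := hcI (e ⟨i, l⟩)
    rw [e.symm_apply_apply] at h1
    exact h1
  refine ⟨n, c, hn, hc, ?_⟩
  have key : ∀ i, ∀ j : Fin m, ∀ x ∈ copy j, ∀ y ∈ copy j, (∀ a, c (x (j, a)) = c (y (j, a))) →
      x ∈ P i → y ∈ P i := by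
    intro i j x hx y hy hxy hxP
    rw [hPI i, mem_iUnion] at hxP ⊢
    obtain ⟨l, hl⟩ := hxP
    exact ⟨l, step hc hx hy hxy (hI i l).1 (hI i l).2.2 (hcI' i l) hl⟩
  intro i j x hx y hy hxy
  exact ⟨key i j x hx y hy hxy, key i j y hy x hx (fun a => (hxy a).symm)⟩

/-- R15. A cell function adapted to finitely many pieces of `K m`. -/
theorem R15 {m : ℕ} {ι : Type} [Fintype ι] (P : ι → Set (Fin m × Fin 4 → ℝ))
    (hP : ∀ i, IsPiece (K m) (P i)) :
    ∃ (n : ℕ) (c : ℝ → ℕ), 1 ≤ n ∧ Cell n c ∧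
      ∀ i, ∀ j : Fin m, ∀ x ∈ copy j, ∀ y ∈ copy j, (∀ a, c (x (j, a)) = c (y (j, a))) →
        (x ∈ P i ↔ y ∈ P i) :=
  R15_of Pool.Agent.Helper30.MR.R14 P hP

end Pool.Agent.Helper57.MR
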